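import Mathlib


namespace Pool.Agent.Results.MP_f748d5_al.Image

/-- Virtually abelian groups. -/
def VirtAb (G : Type) [Group G] : Prop :=
  ∃ A : Subgroup G, A.FiniteIndex ∧ ∀ a ∈ A, ∀ b ∈ A, a * b = b * a

/-- Virtually cyclic groups. -/
def VirtCyc (G : Type) [Group G] : Prop := ∃ C : Subgroup G, C.FiniteIndex ∧ IsCyclic C

open Multiplicative

/-- lattices: abelian normal subgroups of finite index separated by finitely many characters -/
structure Lat {G : Type} [Group G] (A : Subgroup G) : Prop where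
  normal : A.Normal
  fin : A.FiniteIndex
  comm : ∀ a ∈ A, ∀ b ∈ A, a * b = b * a
  sep : ∃ (j : Type) (_ : Finite j) (_ : Nonempty j) (l : j → A →* Multiplicative ℤ),
    ∀ a, (∀ k, l k a = 1) → a = 1

lemma exists_lat {G : Type} [Group G] [Group.FG G] (h : VirtAb G) : ∃ A : Subgroup G, Lat A := by
  obtain ⟨H0, _, hc⟩ := h
  set H := H0.normalCore
  have hc' : ∀ a ∈ H, ∀ b ∈ H, a * b = b * a := fun a ha b hb =>
    hc _ (H0.normalCore_le ha) _ (H0.normalCore_le hb)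
  let _ : CommGroup H := { (inferInstance : Group H) with
    mul_comm := fun a b => Subtype.ext (hc' _ a.2 _ b.2) }
  obtain ⟨ι, j, _, _, p, hp, e, ⟨ψ⟩⟩ := CommGroup.equiv_free_prod_prod_multiplicative_zmod H
  have : ∀ i, NeZero (p i ^ e i) := fun i => ⟨pow_ne_zero _ (hp i).ne_zero⟩
  set E := Nat.card ((i : ι) → Multiplicative (ZMod (p i ^ e i)))
  have hE : 0 < E := Nat.card_pos
  let A := (powMonoidHom (α := H) E).range.map H.subtype
  have hA : A ≤ H := Subgroup.map_subtype_le _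
  refine ⟨A, ⟨?_⟩, ⟨?_⟩, fun a ha b hb => hc' _ (hA ha) _ (hA hb), Option j, inferInstance,
    inferInstance, fun k => k.elim 1 fun k => (Pi.evalMonoidHom _ k).comp ((MonoidHom.fst _ _).comp
      (ψ.toMonoidHom.comp (Subgroup.inclusion hA))), ?_⟩
  · rintro _ ⟨_, ⟨d, rfl⟩, rfl⟩ g
    exact ⟨_, ⟨⟨g * d * g⁻¹, Subgroup.Normal.conj_mem inferInstance _ d.2 g⟩, rfl⟩, by simp⟩
  · rw [Subgroup.index_map_subtype]
    exact mul_ne_zero (Subgroup.finiteIndex_range_powMonoidHom_of_fg H hE.ne').index_ne_zero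
      Subgroup.FiniteIndex.index_ne_zero
  · rintro ⟨_, _, ⟨d, rfl⟩, rfl⟩ h
    have : ψ (d ^ E) = 1 := Prod.ext (funext fun k => h (some k))
      (by rw [map_pow]; exact pow_card_eq_one')
    rw [map_eq_one_iff _ ψ.injective] at this
    exact Subtype.ext (congrArg Subtype.val this :)

lemma Lat.tf {G : Type} [Group G] {A : Subgroup G} (h : Lat A) {a b : G} (ha : a ∈ A) (hb : b ∈ A)
    {k : ℤ} (hk : k ≠ 0) (e : a ^ k = b ^ k) : a = b := by
  obtain ⟨j, _, _, l, hl⟩ := h.sep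
  have := hl (⟨a, ha⟩ * ⟨b, hb⟩⁻¹) fun i => by
    have h1 : (⟨a, ha⟩ : A) ^ k = ⟨b, hb⟩ ^ k := Subtype.ext e
    have h2 := congrArg (fun z => toAdd (l i z)) h1
    simp only [map_zpow, toAdd_zpow, smul_eq_mul] at h2
    rw [map_mul, map_inv, mul_inv_eq_one]
    exact toAdd.injective (mul_left_cancel₀ hk h2)
  exact congrArg Subtype.val (mul_inv_eq_one.1 this)

lemma refine_lat {G G0 : Type} [Group G] [Group.FG G] [Group G0] {A : Subgroup G} (h : Lat A)
    (i : G0 →* G) (hi : Function.Injective i) (c : G0) (hc : i c ∈ A)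
    (hp : ∀ g : G0, ∃ k : ℕ, 0 < k ∧ g ^ k ∈ Subgroup.zpowers c) :
    ∃ N : Subgroup G, Lat N ∧ ∀ g, i g ∈ N ↔ g ∈ Subgroup.zpowers c := by
  classical
  by_cases hc1 : c = 1
  · refine ⟨A, h, fun g => ⟨fun hg => ?_, ?_⟩⟩
    · obtain ⟨k, hk, j, e⟩ := hp g
      have : i g = 1 := h.tf hg A.one_mem (k := k) (by omega) (by
        rw [zpow_natCast, ← map_pow, ← e, hc1]; simp)
      rw [hi (this.trans (map_one i).symm)]; exact Subgroup.one_mem _
    · rintro ⟨j, rfl⟩; simpa [hc1] using A.one_mem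
  have := h.fin
  let _ : CommGroup A := { (inferInstance : Group A) with
    mul_comm := fun a b => Subtype.ext (h.comm _ a.2 _ b.2) }
  obtain ⟨j, _, _, l, hl⟩ := h.sep
  obtain ⟨k0, hk0⟩ : ∃ k, l k ⟨_, hc⟩ ≠ 1 := by
    by_contra! h0
    exact hc1 (hi ((congrArg Subtype.val (hl _ h0)).trans (map_one i).symm))
  let Q : ℕ → Prop := fun n => 0 < n ∧ ∃ e : A, e ^ n = ⟨_, hc⟩
  have hb : ∀ n, Q n → n ≤ (toAdd (l k0 ⟨_, hc⟩)).natAbs := by
    rintro n ⟨-, e, he⟩
    refine Nat.le_of_dvd (Int.natAbs_pos.2 hk0) (Int.natCast_dvd.1 ⟨toAdd (l k0 e), ?_⟩)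
    rw [← he, map_pow, toAdd_pow, nsmul_eq_mul]
  have q1 : Q 1 := ⟨one_pos, _, pow_one _⟩
  obtain ⟨hn, e, he⟩ := Nat.findGreatest_spec (hb 1 q1) q1
  have hmax : ∀ m, Q m → m ≤ Nat.findGreatest Q _ := fun m hm => Nat.le_findGreatest (hb m hm) hm
  generalize Nat.findGreatest Q _ = n at hn he hmax
  let N := (powMonoidHom (α := A) n).range.map A.subtype
  have hN : N ≤ A := Subgroup.map_subtype_le _
  refine ⟨N, ⟨⟨?_⟩, ⟨?_⟩, fun a ha b hb => h.comm _ (hN ha) _ (hN hb), j, inferInstance,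
    inferInstance, fun k => (l k).comp (Subgroup.inclusion hN), fun a ha => ?_⟩, fun g => ⟨?_, ?_⟩⟩
  · rintro _ ⟨_, ⟨d, rfl⟩, rfl⟩ g
    exact ⟨_, ⟨⟨g * d * g⁻¹, h.normal.conj_mem _ d.2 g⟩, rfl⟩, by simp⟩
  · rw [Subgroup.index_map_subtype]
    exact mul_ne_zero (Subgroup.finiteIndex_range_powMonoidHom_of_fg A hn.ne').index_ne_zero
      Subgroup.FiniteIndex.index_ne_zero
  · exact Subtype.ext (congrArg Subtype.val (hl _ ha) :)
  · rintro ⟨_, ⟨a, rfl⟩, ha⟩
    have ha : (a : G) ^ n = i g := ha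
    have he' : (e : G) ^ n = i c := congrArg Subtype.val he
    obtain ⟨k, hk, m, hm⟩ := hp g
    have hm : c ^ m = g ^ k := hm
    obtain ⟨k', m', hco, e1, e2⟩ := Int.exists_gcd_one (m := k) (n := m)
      (Int.gcd_pos_of_ne_zero_left _ (by omega))
    have hd : 0 < Int.gcd k m := Int.gcd_pos_of_ne_zero_left _ (by omega)
    generalize Int.gcd k m = d at *
    have h1 : (a : G) ^ k' = (e : G) ^ m' := h.tf (A.zpow_mem a.2 _) (A.zpow_mem e.2 _)
      (k := d * n) (by positivity) (by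
        rw [← zpow_mul, ← zpow_mul, ← mul_assoc, ← mul_assoc, ← e1, ← e2, mul_comm, mul_comm m,
          zpow_mul, zpow_mul, zpow_natCast, zpow_natCast, zpow_natCast, ha, he', ← map_pow,
          ← map_zpow, hm])
    have h2 : a ^ k' = e ^ m' := Subtype.ext h1
    obtain ⟨s, t, hst⟩ := Int.isCoprime_iff_gcd_eq_one.2 hco
    have hk' : 0 < k' := by
      by_contra! h0
      have : k' * d ≤ 0 := mul_nonpos_of_nonpos_of_nonneg h0 (by positivity)
      omega
    obtain ⟨r, rfl⟩ := Int.eq_ofNat_of_zero_le hk'.le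
    have h3 : (e ^ s * a ^ t) ^ r = e := by
      rw [← zpow_natCast, mul_zpow, ← zpow_mul, ← zpow_mul, mul_comm t, zpow_mul a, h2, ← zpow_mul,
        ← zpow_add, mul_comm m', hst, zpow_one]
    have h4 := hmax (r * n) ⟨Nat.mul_pos (by exact_mod_cast hk') hn, _, by rw [pow_mul, h3, he]⟩
    have h5 : r = 1 := by
      have : 0 < r := by exact_mod_cast hk'
      nlinarith
    subst h5
    refine ⟨m', hi ?_⟩
    simp only [Nat.cast_one, zpow_one] at h1
    show i (c ^ m') = _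
    rw [map_zpow, ← he', ← ha, h1, ← zpow_natCast, ← zpow_natCast, ← zpow_mul, ← zpow_mul, mul_comm]
  · rintro ⟨m, rfl⟩
    show i (c ^ m) ∈ N
    rw [map_zpow]
    exact N.zpow_mem ⟨_, ⟨e, rfl⟩, congrArg Subtype.val he⟩ _

lemma side {G G0 : Type} [Group G] [Group G0] {N : Subgroup G} (hN : Lat N) (i : G0 →* G)
    (hi : Function.Injective i) (c : G0) (hc : ∀ g, i g ∈ N ↔ g ∈ Subgroup.zpowers c) (h : G0 → ℤ)
    (hh : (c ≠ 1 ∧ ∀ p (k : ℤ), h (p * c ^ k) = h p + k) ∨ (c = 1 ∧ h = 0)) :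
    ∃ (U : Type) (_ : Finite U) (a : U → ℤ) (π : G →* Equiv.Perm (U × (G0 ⧸ Subgroup.zpowers c)))
      (β : G → U × (G0 ⧸ Subgroup.zpowers c) → ℤ), (∃ u, a u ≠ 0) ∧
      (∀ g g' w, β (g * g') w = β g (π g' w) + β g' w) ∧
      (∀ g u p, π (i g) (u, p) = (u, g • p)) ∧
      (∀ g u p, β (i g) (u, p) = a u * (h (g * p.out) - h p.out)) ∧
      ∀ g p, π g = 1 → (∀ u, β g (u, p) = 0) → g = 1 := by
  classical
  have := hN.normal
  have := hN.fin
  obtain ⟨j, _, ⟨j0⟩, l, hl⟩ := hN.sep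
  let R := MulAction.orbitRel i.range (G ⧸ N)
  let O := Quotient R
  let x : O × (G0 ⧸ Subgroup.zpowers c) → G := fun w => i w.2.out * w.1.out.out
  have hx : ∀ (o : O) (g : G0), ∃ k : ℤ, i g * o.out.out =
      x (o, (g : G0 ⧸ Subgroup.zpowers c)) * ((o.out.out)⁻¹ * i c * o.out.out) ^ k ∧
      g = (g : G0 ⧸ Subgroup.zpowers c).out * c ^ k := by
    intro o g
    obtain ⟨k, hk⟩ : ((g : G0 ⧸ Subgroup.zpowers c).out)⁻¹ * g ∈ Subgroup.zpowers c :=
      QuotientGroup.eq.1 (by simp)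
    have e : g = (g : G0 ⧸ Subgroup.zpowers c).out * c ^ k := by
      rw [show c ^ k = _ from hk, mul_inv_cancel_left]
    refine ⟨k, ?_, e⟩
    have := conj_zpow (a := (o.out.out)⁻¹) (b := i c) (i := k)
    rw [inv_inv] at this
    conv_lhs => rw [e]
    simp only [x, this, map_mul, map_zpow]; group
  have hcN : ∀ y : G, y⁻¹ * i c * y ∈ N := fun y =>
    hN.normal.conj_mem' _ ((hc c).2 (Subgroup.mem_zpowers c)) y
  have hx' : ∀ (o : O) (g : G0), ((i g * o.out.out : G) : G ⧸ N) = x (o, (g : G0 ⧸ _)) := by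
    intro o g
    obtain ⟨k, hk, -⟩ := hx o g
    rw [hk, QuotientGroup.mk_mul_of_mem _ (N.zpow_mem (hcN _) k)]
  have hbij : Function.Bijective fun w => (x w : G ⧸ N) := by
    have ho : ∀ w, Quotient.mk R (x w : G ⧸ N) = w.1 := fun w => by
      rw [← Quotient.out_eq w.1]
      refine Quotient.sound ⟨⟨i w.2.out, _, rfl⟩, ?_⟩
      show i w.2.out • w.1.out = _
      conv_lhs => rw [← QuotientGroup.out_eq' w.1.out]
      rfl
    constructor
    · rintro ⟨o, p⟩ ⟨o', p'⟩ e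
      have e1 : o = o' := by rw [← show _ = o from ho (o, p), ← show _ = o' from ho (o', p')]; exact congrArg _ e
      subst e1
      have e2 := hN.normal.conj_mem _ (QuotientGroup.eq.1 e) o.out.out
      have e3 : o.out.out * ((x (o, p))⁻¹ * x (o, p')) * (o.out.out)⁻¹ = i (p.out⁻¹ * p'.out) := by
        simp only [x, map_mul, map_inv]; group
      rw [e3, hc, ← QuotientGroup.eq] at e2
      simpa using e2
    · intro y
      obtain ⟨⟨_, g, rfl⟩, hg⟩ : y ∈ MulAction.orbit i.range (Quotient.mk R y).out :=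
        R.symm (Quotient.mk_out (s := R) y)
      refine ⟨(Quotient.mk R y, (g : G0 ⧸ _)), ?_⟩
      show (x _ : G ⧸ N) = y
      rw [← hx']
      conv_rhs => rw [← hg, ← QuotientGroup.out_eq' (Quotient.mk R y).out]
      rfl
  let θ := Equiv.ofBijective _ hbij
  have hθ : ∀ w, θ.symm (x w : G ⧸ N) = w := θ.symm_apply_apply
  have hs : ∀ g : G, (x (θ.symm g))⁻¹ * g ∈ N := fun g =>
    QuotientGroup.eq.1 (θ.apply_symm_apply g)
  let a0 : j → O → ℤ := fun k o => toAdd (l k ⟨_, hcN o.out.out⟩)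
  let L : j → G → ℤ := fun k g =>
    a0 k (θ.symm g).1 * h (θ.symm g).2.out + toAdd (l k ⟨_, hs g⟩)
  have hL : ∀ k g (n : N), L k (g * n) = L k g + toAdd (l k n) := by
    intro k g n
    have e : ((g * n : G) : G ⧸ N) = g := QuotientGroup.mk_mul_of_mem _ n.2
    have e2 : (⟨_, hs (g * n)⟩ : N) = ⟨_, hs g⟩ * n := Subtype.ext (by
      show (x (θ.symm ((g * n : G) : G ⧸ N)))⁻¹ * (g * n) = (x (θ.symm g))⁻¹ * g * n
      rw [e, mul_assoc])
    simp only [L]
    rw [e2, e, map_mul, toAdd_mul, add_assoc]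
  have hL0 : ∀ k w, L k (x w) = a0 k w.1 * h w.2.out := by
    intro k w
    have e2 : (⟨_, hs (x w)⟩ : N) = 1 := Subtype.ext (by
      show (x (θ.symm (x w : G ⧸ N)))⁻¹ * x w = 1
      rw [hθ, inv_mul_cancel])
    simp only [L]
    rw [e2, hθ, map_one, toAdd_one, add_zero]
  let σ : G → O × (G0 ⧸ Subgroup.zpowers c) → O × (G0 ⧸ Subgroup.zpowers c) :=
    fun g w => θ.symm ((g * x w : G) : G ⧸ N)
  have hσ : ∀ g g' w, σ (g * g') w = σ g (σ g' w) := by
    intro g g' w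
    have : (x (σ g' w) : G ⧸ N) = (g' * x w : G) := θ.apply_symm_apply _
    simp only [σ, mul_assoc, QuotientGroup.mk_mul] at this ⊢
    rw [this]
  have hσ0 : ∀ g o p, σ (i g) (o, p) = (o, g • p) := by
    intro g o p
    simp only [σ, x, ← mul_assoc, ← map_mul]
    rw [hx', hθ]
    conv_rhs => rw [← QuotientGroup.out_eq' p]
    rfl
  refine ⟨(j × Bool) × O, inferInstance,
    fun u => if c = 1 then (if u.1.2 then 1 else 0) else a0 u.1.1 u.2,
    MonoidHom.toHomPerm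
      { toFun := fun g w => ((w.1.1, (σ g (w.1.2, w.2)).1), (σ g (w.1.2, w.2)).2)
        map_one' := funext fun w => by simp only [σ, one_mul, hθ]; rfl
        map_mul' := fun g g' => funext fun w => by simp only [hσ]; rfl },
    fun g w => L w.1.1.1 (g * x (w.1.2, w.2)) - L w.1.1.1 (x (w.1.2, w.2)), ?_, ?_, ?_, ?_, ?_⟩
  · let o : O := Quotient.mk R 1
    by_cases h1 : c = 1
    · exact ⟨((j0, true), o), by simp [h1]⟩
    · by_contra! h0
      have := congrArg Subtype.val (hl ⟨_, hcN o.out.out⟩ fun k => by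
        simpa [h1, a0] using h0 ((k, true), o))
      simp only [OneMemClass.coe_one, mul_eq_one_iff_eq_inv, inv_mul_eq_iff_eq_mul,
        mul_inv_cancel] at this
      exact h1 (hi (this.trans (map_one i).symm))
  · rintro g g' ⟨⟨k, o⟩, p⟩
    have e1 := hL k.1 (x (σ g' (o, p))) ⟨_, hs (g' * x (o, p))⟩
    have e2 := hL k.1 (g * x (σ g' (o, p))) ⟨_, hs (g' * x (o, p))⟩
    simp only [σ, mul_assoc, mul_inv_cancel_left] at e1 e2
    show L k.1 (g * g' * x (o, p)) - L k.1 (x (o, p)) = L k.1 (g * x (σ g' (o, p))) -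
      L k.1 (x (σ g' (o, p))) + (L k.1 (g' * x (o, p)) - L k.1 (x (o, p)))
    simp only [σ, mul_assoc]
    linarith
  · rintro g ⟨k, o⟩ p
    show ((k, (σ (i g) (o, p)).1), (σ (i g) (o, p)).2) = _
    rw [hσ0]
  · rintro g ⟨k, o⟩ p
    show L k.1 (i g * x (o, p)) - L k.1 (x (o, p)) = _
    obtain ⟨m, e1, e2⟩ := hx o (g * p.out)
    have e3 : i g * x (o, p) = x (o, ((g * p.out : G0) : G0 ⧸ _)) *
        ((⟨_, hcN o.out.out⟩ : N) ^ m : N) := by
      simp only [x, ← mul_assoc, ← map_mul]; exact e1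
    rw [e3, hL, hL0, hL0, map_zpow, toAdd_zpow, smul_eq_mul]
    rcases hh with ⟨h1, h2⟩ | ⟨h1, h2⟩
    · simp only [if_neg h1]
      conv_rhs => rw [e2, h2]
      simp only [a0]; ring
    · have : (⟨_, hcN o.out.out⟩ : N) = 1 := Subtype.ext (by simp [h1])
      simp [h2, this]
  · intro g p h1 h2
    let o : O := Quotient.mk R 1
    have h3 := congrArg (fun f : Equiv.Perm _ => f (((j0, true), o), p)) h1
    have h4 : σ g (o, p) = (o, p) :=
      Prod.ext (congrArg (fun z => z.1.2) h3) (congrArg (fun z => z.2) h3)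
    have h5 := hs (g * x (o, p))
    rw [show θ.symm _ = (o, p) from h4] at h5
    have h6 := congrArg Subtype.val (hl ⟨_, h5⟩ fun k => by
      have a1 := hL k (x (o, p)) ⟨_, h5⟩
      have a2 : L k (g * x (o, p)) - L k (x (o, p)) = 0 := h2 ((k, true), o)
      simp only [mul_inv_cancel_left] at a1
      exact toAdd.injective (by simp only [toAdd_one]; linarith))
    simpa [inv_mul_eq_one] using h6

/-- the wreath product of the integers with a symmetric group -/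
@[ext] structure E (Ω : Type) where
  π : Equiv.Perm Ω
  β : Ω → ℤ

instance (Ω : Type) : Group (E Ω) where
  mul x y := ⟨x.π * y.π, fun w => x.β (y.π w) + y.β w⟩
  one := ⟨1, 0⟩
  inv x := ⟨x.π⁻¹, fun w => -x.β (x.π⁻¹ w)⟩
  mul_assoc x y z := E.ext (mul_assoc _ _ _) (funext fun _ => add_assoc _ _ _)
  one_mul x := E.ext (one_mul _) (funext fun _ => zero_add _)
  mul_one x := E.ext (mul_one _) (funext fun _ => add_zero _)
  inv_mul_cancel x := E.ext (inv_mul_cancel _) (funext fun w => by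
    show -x.β (x.π⁻¹ (x.π w)) + x.β w = 0
    simp)

def Pi' (Ω : Type) : E Ω →* Equiv.Perm Ω := MonoidHom.mk' E.π fun _ _ => rfl

lemma ker_beta {Ω : Type} {x y : E Ω} (hy : y ∈ (Pi' Ω).ker) (w : Ω) :
    (x * y).β w = x.β w + y.β w := by
  have : y.π = 1 := hy
  show x.β (y.π w) + y.β w = _
  rw [this]; rfl

lemma E_ab (Ω : Type) [Finite Ω] : VirtAb (E Ω) :=
  ⟨(Pi' Ω).ker, inferInstance, fun a ha b hb => E.ext
    (((Pi' Ω).ker.mul_mem ha hb).trans ((Pi' Ω).ker.mul_mem hb ha).symm)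
    (funext fun w => by rw [ker_beta hb, ker_beta ha, add_comm])⟩

lemma E_fg (Ω : Type) [Finite Ω] : Group.FG (E Ω) := by
  let f : Equiv.Perm Ω →* E Ω := MonoidHom.mk' (fun p => ⟨p, 0⟩) fun _ _ => rfl
  let g : Multiplicative (Ω → ℤ) →* E Ω := MonoidHom.mk' (fun b => ⟨1, toAdd b⟩) fun _ _ => rfl
  have : AddGroup.FG (Ω → ℤ) := Module.Finite.iff_addGroup_fg.1 inferInstance
  have h1 := (Group.fg_iff_subgroup_fg _).1 (Group.fg_range f)
  have h2 := (Group.fg_iff_subgroup_fg _).1 (Group.fg_range g)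
  have h3 : f.range ⊔ g.range = ⊤ := by
    rw [eq_top_iff]
    intro x _
    have : x = f x.π * g (ofAdd x.β) := E.ext (mul_one _).symm (funext fun w => (zero_add _).symm)
    rw [this]
    exact Subgroup.mul_mem_sup ⟨_, rfl⟩ ⟨_, rfl⟩
  exact ⟨h3 ▸ h1.sup h2⟩

lemma main {G1 G2 G0 : Type} [Group G1] [Group G2] [Group G0] [Group.FG G1] [Group.FG G2]
    (h1 : VirtAb G1) (h2 : VirtAb G2) (h0 : VirtCyc G0) (i1 : G0 →* G1) (i2 : G0 →* G2)
    (hi1 : Function.Injective i1) (hi2 : Function.Injective i2) :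
    ∃ (Ω : Type) (_ : Finite Ω) (ν1 : G1 →* E Ω) (ν2 : G2 →* E Ω), ν1.comp i1 = ν2.comp i2 ∧
      Function.Injective ν1 ∧ Function.Injective ν2 ∧ VirtCyc ↥(ν1.range ⊓ ν2.range) := by
  classical
  obtain ⟨A1, hA1⟩ := exists_lat h1
  obtain ⟨A2, hA2⟩ := exists_lat h2
  obtain ⟨C, hC, hcy⟩ := h0
  obtain ⟨c0, rfl⟩ := (Subgroup.isCyclic_iff_exists_zpowers_eq_top C).1 hcy
  have := hA1.normal
  have := hA2.normal
  have p1 := Nat.pos_of_ne_zero hA1.fin.index_ne_zero
  have p2 := Nat.pos_of_ne_zero hA2.fin.index_ne_zero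
  set c := c0 ^ (A1.index * A2.index) with hc
  have hp : ∀ g : G0, ∃ k : ℕ, 0 < k ∧ g ^ k ∈ Subgroup.zpowers c := fun g => by
    obtain ⟨k, hk, -, m, hm⟩ := Subgroup.exists_pow_mem_of_index_ne_zero hC.index_ne_zero g
    refine ⟨k * (A1.index * A2.index), by positivity, m, ?_⟩
    have hm : c0 ^ m = g ^ k := hm
    show c ^ m = _
    rw [pow_mul, ← hm, hc, ← zpow_natCast, ← zpow_natCast, ← zpow_mul, ← zpow_mul, mul_comm]
  obtain ⟨N1, hN1, e1⟩ := refine_lat hA1 i1 hi1 c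
    (by rw [hc, map_pow, pow_mul]; exact A1.pow_mem (A1.pow_index_mem _) _) hp
  obtain ⟨N2, hN2, e2⟩ := refine_lat hA2 i2 hi2 c
    (by rw [hc, map_pow, mul_comm, pow_mul]; exact A2.pow_mem (A2.pow_index_mem _) _) hp
  have hfin : Finite (G0 ⧸ Subgroup.zpowers c) := by
    have : Subgroup.zpowers c = N1.comap i1 := Subgroup.ext fun g => (e1 g).symm
    have h3 := hN1.fin
    have h4 : (N1.comap i1).FiniteIndex := ⟨by
      rw [Subgroup.index_comap]
      exact Subgroup.FiniteIndex.index_ne_zero (H := N1.subgroupOf i1.range)⟩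
    rw [this]; infer_instance
  obtain ⟨h, hh⟩ : ∃ h : G0 → ℤ,
      (c ≠ 1 ∧ ∀ p (k : ℤ), h (p * c ^ k) = h p + k) ∨ (c = 1 ∧ h = 0) := by
    by_cases h3 : c = 1
    · exact ⟨0, Or.inr ⟨h3, rfl⟩⟩
    have h4 : ∀ g : G0, ∃ k : ℤ, c ^ k = ((g : G0 ⧸ Subgroup.zpowers c).out)⁻¹ * g := fun g =>
      (QuotientGroup.eq (s := Subgroup.zpowers c)).1 (by simp)
    choose h h4 using h4
    refine ⟨h, Or.inl ⟨h3, fun p k => ?_⟩⟩
    have h5 := h4 (p * c ^ k)
    rw [QuotientGroup.mk_mul_of_mem _ (Subgroup.zpow_mem _ (Subgroup.mem_zpowers c) k),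
      ← mul_assoc, ← h4 p, ← zpow_add, ← mul_inv_eq_one, ← zpow_sub] at h5
    by_contra h6
    refine h3 (hi1 (hN1.tf ((e1 c).2 (Subgroup.mem_zpowers c)) (by simp) (sub_ne_zero.2 h6) ?_))
    rw [← map_zpow, h5]; simp
  obtain ⟨U, _, a, π, β, ⟨u0, hu⟩, b1, b2, b3, b4⟩ := side hN1 i1 hi1 c e1 h hh
  obtain ⟨V, _, a', π', β', ⟨v0, hv⟩, c1, c2, c3, c4⟩ := side hN2 i2 hi2 c e2 h hh
  let Ω := U × V × (G0 ⧸ Subgroup.zpowers c)
  let s1 : G1 →* Equiv.Perm Ω := MonoidHom.toHomPerm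
    { toFun := fun g w => ((π g (w.1, w.2.2)).1, w.2.1, (π g (w.1, w.2.2)).2)
      map_one' := funext fun w => by simp only [map_one]; rfl
      map_mul' := fun g g' => funext fun w => by simp only [map_mul]; rfl }
  let s2 : G2 →* Equiv.Perm Ω := MonoidHom.toHomPerm
    { toFun := fun g w => (w.1, π' g w.2)
      map_one' := funext fun w => by simp only [map_one]; rfl
      map_mul' := fun g g' => funext fun w => by simp only [map_mul]; rfl }
  let ν1 : G1 →* E Ω := MonoidHom.mk' (fun g => ⟨s1 g, fun w => a' w.2.1 * β g (w.1, w.2.2)⟩)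
    fun g g' => E.ext (map_mul s1 _ _) (funext fun w => by
      show _ = a' w.2.1 * β g (π g' (w.1, w.2.2)) + a' w.2.1 * β g' (w.1, w.2.2)
      rw [← mul_add, ← b1])
  let ν2 : G2 →* E Ω := MonoidHom.mk' (fun g => ⟨s2 g, fun w => a w.1 * β' g w.2⟩)
    fun g g' => E.ext (map_mul s2 _ _) (funext fun w => by
      show _ = a w.1 * β' g (π' g' w.2) + a w.1 * β' g' w.2
      rw [← mul_add, ← c1])
  have k1 : ∀ g, s1 g = 1 → π g = 1 := fun g e => Equiv.ext fun w => by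
    have := congrArg (fun f : Equiv.Perm Ω => f (w.1, v0, w.2)) e
    exact Prod.ext (congrArg (fun z => z.1) this) (congrArg (fun z => z.2.2) this)
  have k2 : ∀ g, s2 g = 1 → π' g = 1 := fun g e => Equiv.ext fun w =>
    congrArg (fun f : Equiv.Perm Ω => (f (u0, w)).2) e
  let p0 : G0 ⧸ Subgroup.zpowers c := (1 : G0)
  refine ⟨Ω, inferInstance, ν1, ν2, MonoidHom.ext fun g => E.ext (Equiv.ext fun w => ?_)
    (funext fun w => ?_), (injective_iff_map_eq_one _).2 fun g e => b4 g p0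
      (k1 g (congrArg E.π e)) fun u => ?_, (injective_iff_map_eq_one _).2 fun g e => c4 g p0
      (k2 g (congrArg E.π e)) fun v => ?_, (Pi' Ω).ker.subgroupOf _, inferInstance, ?_⟩
  · show ((π (i1 g) (w.1, w.2.2)).1, w.2.1, (π (i1 g) (w.1, w.2.2)).2) = (w.1, π' (i2 g) (w.2.1, w.2.2))
    rw [b2, c2]
  · show a' w.2.1 * β (i1 g) (w.1, w.2.2) = a w.1 * β' (i2 g) (w.2.1, w.2.2)
    rw [b3, c3]; ring
  · exact (mul_eq_zero.1 (congrFun (congrArg E.β e) (u, v0, p0))).resolve_left hv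
  · exact (mul_eq_zero.1 (congrFun (congrArg E.β e) (u0, v, p0))).resolve_left hu
  · let f : (Pi' Ω).ker.subgroupOf (ν1.range ⊓ ν2.range) →* Multiplicative ℤ :=
      MonoidHom.mk' (fun z => ofAdd (z.1.1.β (u0, v0, p0))) fun y z =>
        congrArg ofAdd (ker_beta z.2 _)
    refine isCyclic_of_injective f ((injective_iff_map_eq_one _).2 ?_)
    rintro ⟨⟨_, ⟨g, rfl⟩, g', e⟩, hz⟩ hf
    have d1 : ∀ u, a u * β' g' (v0, p0) = a' v0 * β g (u, p0) := fun u =>
      congrFun (congrArg E.β e) (u, v0, p0)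
    have d2 : a' v0 * β g (u0, p0) = 0 := hf
    have d3 := (mul_eq_zero.1 ((d1 u0).trans d2)).resolve_left hu
    have d4 := b4 g p0 (k1 g hz) fun u =>
      (mul_eq_zero.1 ((d1 u).symm.trans (by rw [d3, mul_zero]))).resolve_left hv
    exact Subtype.ext (Subtype.ext (by simp [d4]))

theorem result (G : Bool → Type) [∀ b, Group (G b)] (G0 : Type) [Group G0] (φ : ∀ b, G0 →* G b)
    (hφ : ∀ b, Function.Injective (φ b)) (hfg : ∀ b, Group.FG (G b)) (hab : ∀ b, VirtAb (G b))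
    (h0 : VirtCyc G0) :
    ∃ (E : Type) (_ : Group E) (ν : Monoid.PushoutI φ →* E), Group.FG E ∧ VirtAb E ∧
      (∀ b, Function.Injective (ν.comp (Monoid.PushoutI.of b))) ∧
      VirtCyc ↥((ν.comp (Monoid.PushoutI.of true)).range ⊓
        (ν.comp (Monoid.PushoutI.of false)).range) := by
  have := hfg true
  have := hfg false
  obtain ⟨Ω, _, ν1, ν2, h1, h2, h3, h4⟩ :=
    main (hab true) (hab false) h0 (φ true) (φ false) (hφ _) (hφ _)
  let f : ∀ b, G b →* E Ω := fun b => match b with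
    | true => ν1
    | false => ν2
  have hf : ∀ b, (f b).comp (φ b) = ν1.comp (φ true) := fun b => by
    cases b
    exacts [h1.symm, rfl]
  have e : ∀ b, (Monoid.PushoutI.lift f _ hf).comp (Monoid.PushoutI.of b) = f b := fun b =>
    MonoidHom.ext fun g => Monoid.PushoutI.lift_of f _ hf g
  refine ⟨E Ω, inferInstance, Monoid.PushoutI.lift f _ hf, E_fg Ω, E_ab Ω, fun b => ?_, ?_⟩
  · rw [e]; cases b
    exacts [h3, h2]
  · rw [e, e]; exact h4

end Pool.Agent.Results.MP_f748d5_al.Image
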